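import Pool.Agent.N748.HM.SUP

set_option autoImplicit false

/-!
# The maximum in windows (part MXU of project T17 of helper291): subharmonicity of `log⁺ |f|`
-/

namespace Run7.h701.MX

open Filter Topology MeasureTheory Metric Real Set
open scoped ENNReal Real

/-- the sub-mean value inequality on circles -/
theorem posLog_le_circleAverage {g : ℂ → ℂ} {w : ℂ} {r ρ : ℝ} (hr : 0 < r)
    (hrρ : r < ρ) (hg : DifferentiableOn ℂ g (ball w ρ)) :
    posLog ‖g w‖ ≤ circleAverage (fun z => posLog ‖g z‖) w r := by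
  have habs : |r| = r := abs_of_pos hr
  have hcb : closedBall w |r| ⊆ ball w ρ := by rw [habs]; exact closedBall_subset_ball hrρ
  have han : AnalyticOnNhd ℂ g (closedBall w |r|) := (hg.analyticOnNhd isOpen_ball).mono hcb
  have hmer : MeromorphicOn g (sphere w |r|) := (han.mono sphere_subset_closedBall).meromorphicOn
  have hnn : 0 ≤ circleAverage (fun z => posLog ‖g z‖) w r :=
    circleAverage_nonneg_of_nonneg (fun z _ => posLog_nonneg)
  by_cases h0 : g w = 0
  · rw [h0, norm_zero, posLog_zero]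
    exact hnn
  have hlogint : CircleIntegrable (fun z => Real.log ‖g z‖) w r := hmer.circleIntegrable_log_norm
  have hint : CircleIntegrable (fun z => posLog ‖g z‖) w r := hmer.circleIntegrable_posLog_norm
  have h1 : circleAverage (fun z => Real.log ‖g z‖) w r ≤ circleAverage (fun z => posLog ‖g z‖) w r :=
    circleAverage_mono hlogint hint fun z _ => le_max_right _ _
  have h3 : Real.log ‖g w‖ ≤ circleAverage (fun z => Real.log ‖g z‖) w r := by
    rw [AnalyticOnNhd.circleAverage_log_norm hr.ne' han h0]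
    have : 0 ≤ ∑ᶠ u, (MeromorphicOn.divisor g (closedBall w |r|) u : ℝ) * Real.log (r * ‖w - u‖⁻¹) := by
      apply finsum_nonneg
      intro u
      by_cases hu : u ∈ closedBall w |r|
      · apply mul_nonneg
        · have := (MeromorphicOn.AnalyticOnNhd.divisor_nonneg han) u
          exact_mod_cast this
        · by_cases huw : ‖w - u‖ = 0
          · simp [huw]
          · apply Real.log_nonneg
            have hpos : 0 < ‖w - u‖ := lt_of_le_of_ne (norm_nonneg _) (Ne.symm huw)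
            rw [← div_eq_mul_inv, one_le_div hpos]
            rw [mem_closedBall, dist_comm, dist_eq_norm, habs] at hu
            exact hu
      · rw [Function.locallyFinsuppWithin.apply_eq_zero_of_notMem _ hu]
        simp
    linarith
  exact max_le hnn (h3.trans h1)

/-- area version of the sub-mean value inequality -/
theorem posLog_mul_le_lintegral {g : ℂ → ℂ} {w : ℂ} {ρ : ℝ} (hρ : 0 < ρ)
    (hg : DifferentiableOn ℂ g (ball w ρ)) :
    ENNReal.ofReal (posLog ‖g w‖ * (π * ρ ^ 2)) ≤ ∫⁻ z in ball w ρ, ENNReal.ofReal (posLog ‖g z‖) := by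
  have e1 : ∫⁻ z in ball w ρ, ENNReal.ofReal (posLog ‖g z‖) =
      ∫⁻ z, (ball (0:ℂ) ρ).indicator (fun z => ENNReal.ofReal (posLog ‖g (w + z)‖)) z := by
    rw [← lintegral_indicator measurableSet_ball]
    rw [← lintegral_add_left_eq_self _ w]
    congr 1
    funext z
    simp only [Set.indicator, mem_ball, dist_self_add_left, dist_zero_right]
  rw [e1, ← Complex.lintegral_comp_polarCoord_symm]
  set c := posLog ‖g w‖ with hc
  have hc0 : 0 ≤ c := posLog_nonneg
  set S : Set (ℝ × ℝ) := Set.Ioo 0 ρ ×ˢ Set.Ioo (-π) π with hS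
  have hSsub : S ⊆ polarCoord.target := by
    rintro ⟨r, θ⟩ ⟨h1, h2⟩
    exact ⟨h1.1, h2⟩
  have hSm : MeasurableSet S := measurableSet_Ioo.prod measurableSet_Ioo
  refine le_trans ?_ (lintegral_mono_set hSsub)
  set G : ℝ × ℝ → ℝ≥0∞ := fun q => ENNReal.ofReal (q.1 * posLog ‖g (circleMap w q.1 q.2)‖) with hG
  have e2 : ∫⁻ q in S, ENNReal.ofReal q.1 • (ball (0:ℂ) ρ).indicator (fun z => ENNReal.ofReal (posLog ‖g (w + z)‖))
      (Complex.polarCoord.symm q) = ∫⁻ q in S, G q := by
    apply setLIntegral_congr_fun hSm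
    rintro ⟨r, θ⟩ ⟨h1, h2⟩
    have h1' : 0 < r ∧ r < ρ := h1
    have h3 : Complex.polarCoord.symm (r, θ) ∈ ball (0:ℂ) ρ := by
      rw [mem_ball_zero_iff, Complex.norm_polarCoord_symm]
      simp [abs_of_pos h1'.1, h1'.2]
    simp only [Set.indicator_of_mem h3, smul_eq_mul, hG]
    rw [← ENNReal.ofReal_mul h1'.1.le]
    congr 5
    rw [circleMap, Complex.polarCoord_symm_apply, Complex.exp_mul_I]
    simp
  rw [e2]
  have hcm : ContinuousOn (fun q : ℝ × ℝ => q.1 * posLog ‖g (circleMap w q.1 q.2)‖) S := by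
    have h1 : ContinuousOn (fun q : ℝ × ℝ => g (circleMap w q.1 q.2)) S := by
      apply hg.continuousOn.comp
      · apply Continuous.continuousOn
        unfold circleMap
        fun_prop
      · rintro ⟨r, θ⟩ ⟨h1, h2⟩
        have h1' : 0 < r ∧ r < ρ := h1
        simp [circleMap, abs_of_pos h1'.1, h1'.2]
    exact continuousOn_fst.mul (continuous_posLog.comp_continuousOn h1.norm)
  have hGm : AEMeasurable G ((volume.restrict (Set.Ioo 0 ρ)).prod (volume.restrict (Set.Ioo (-π) π))) := by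
    rw [Measure.prod_restrict, ← Measure.volume_eq_prod]
    exact ((hcm.aestronglyMeasurable hSm).aemeasurable).ennreal_ofReal
  rw [hS, Measure.volume_eq_prod, ← Measure.prod_restrict, lintegral_prod _ hGm]
  have hinner : ∀ r ∈ Set.Ioo 0 ρ, ENNReal.ofReal (2 * π * c) * ENNReal.ofReal r ≤
      ∫⁻ θ in Set.Ioo (-π) π, G (r, θ) := by
    intro r hr
    have h1 := posLog_le_circleAverage hr.1 hr.2 hg
    rw [circleAverage_eq_integral_add (-π), intervalIntegral.integral_comp_add_right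
      (fun θ => posLog ‖g (circleMap w r θ)‖)] at h1
    have h2 : (0:ℝ) + -π = -π := by ring
    have h3 : 2 * π + -π = π := by ring
    rw [h2, h3, intervalIntegral.integral_of_le (by linarith [pi_pos]), integral_Ioc_eq_integral_Ioo] at h1
    have hint : IntegrableOn (fun θ => r * posLog ‖g (circleMap w r θ)‖) (Set.Ioo (-π) π) := by
      have h4 : Continuous (fun θ => r * posLog ‖g (circleMap w r θ)‖) := by
        have h5 : Continuous (fun θ => g (circleMap w r θ)) := by
          apply hg.continuousOn.comp_continuous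
          · unfold circleMap; fun_prop
          · intro θ
            simp [circleMap, abs_of_pos hr.1, hr.2]
        exact continuous_const.mul (continuous_posLog.comp h5.norm)
      exact (h4.continuousOn.integrableOn_compact isCompact_Icc).mono_set Set.Ioo_subset_Icc_self
    have h6 : ∫⁻ θ in Set.Ioo (-π) π, G (r, θ)
        = ENNReal.ofReal (∫ θ in Set.Ioo (-π) π, r * posLog ‖g (circleMap w r θ)‖) := by
      rw [ofReal_integral_eq_lintegral_ofReal hint]
      exact Filter.Eventually.of_forall fun θ => mul_nonneg hr.1.le posLog_nonneg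
    rw [h6, ← ENNReal.ofReal_mul (by positivity)]
    apply ENNReal.ofReal_le_ofReal
    rw [integral_const_mul]
    have h7 : c * (2 * π) ≤ ∫ θ in Set.Ioo (-π) π, posLog ‖g (circleMap w r θ)‖ := by
      rw [smul_eq_mul, ← div_eq_inv_mul, le_div_iff₀ (by positivity)] at h1
      exact h1
    nlinarith [hr.1]
  calc ENNReal.ofReal (c * (π * ρ ^ 2))
      = ENNReal.ofReal (2 * π * c) * ∫⁻ r in Set.Ioo 0 ρ, ENNReal.ofReal r := by
        have h1 : ∫⁻ r in Set.Ioo 0 ρ, ENNReal.ofReal r = ENNReal.ofReal (∫ r in Set.Ioo 0 ρ, r) := by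
          rw [ofReal_integral_eq_lintegral_ofReal]
          · exact (continuous_id.continuousOn.integrableOn_compact isCompact_Icc).mono_set Set.Ioo_subset_Icc_self
          · rw [Filter.EventuallyLE, ae_restrict_iff' measurableSet_Ioo]
            exact Filter.Eventually.of_forall fun r hr => hr.1.le
        rw [h1, ← ENNReal.ofReal_mul (by positivity), ← integral_Ioc_eq_integral_Ioo,
          ← intervalIntegral.integral_of_le hρ.le, integral_id]
        congr 1
        ring
    _ = ∫⁻ r in Set.Ioo 0 ρ, ENNReal.ofReal (2 * π * c) * ENNReal.ofReal r := by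
        rw [lintegral_const_mul _ (by fun_prop)]
    _ ≤ ∫⁻ r in Set.Ioo 0 ρ, ∫⁻ θ in Set.Ioo (-π) π, G (r, θ) := by
        apply setLIntegral_mono' measurableSet_Ioo
        exact hinner

/-- from means of `log⁺ |Φ|` to large values in windows -/
theorem sup_log : ∃ C : ℝ, 0 < C ∧ ∀ Φ : ℂ → ℂ, DifferentiableOn ℂ Φ {s : ℂ | 1 / 2 < s.re ∧ s.re < 1} →
    ∀ δ X1 X2 B : ℝ, 0 < δ → δ ≤ 1 / 16 → 0 ≤ B →
    (∀ δ' : ℝ, δ / 2 ≤ δ' → δ' ≤ 3 * δ / 2 →
      ∫⁻ t in Ioo X1 X2, ENNReal.ofReal (posLog ‖Φ (1 / 2 + δ' + t * Complex.I)‖) ≤ ENNReal.ofReal B) →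
    ∀ H κ : ℝ, 0 ≤ H → 0 < κ →
    volume {t : ℝ | X1 + 1 ≤ t ∧ t + H + 1 ≤ X2 ∧ ∃ u : ℝ, t ≤ u ∧ u ≤ t + H ∧
      κ ≤ posLog ‖Φ (1 / 2 + δ + u * Complex.I)‖} ≤ ENNReal.ofReal (C * (H + 2) * B / (δ * κ)) := by
  classical
  refine ⟨4 / π, by positivity, ?_⟩
  intro Φ hΦ δ X1 X2 B hδ hδ2 hB hint H κ hH hκ
  set strip : Set ℂ := {s | 1 / 2 < s.re ∧ s.re < 1} with hstrip
  have hso : IsOpen strip := (isOpen_lt continuous_const Complex.continuous_re).inter
    (isOpen_lt Complex.continuous_re continuous_const)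
  set Ψ : ℂ → ℂ := strip.piecewise Φ (fun _ => 0) with hΨd
  have hΨm : Measurable Ψ :=
    ContinuousOn.measurable_piecewise hΦ.continuousOn continuousOn_const hso.measurableSet
  have hΨ : ∀ z ∈ strip, Ψ z = Φ z := fun z hz => Set.piecewise_eq_of_mem _ _ _ hz
  set f : ℂ → ℝ≥0∞ := fun z => ENNReal.ofReal (posLog ‖Ψ z‖) with hf
  have hfm : Measurable f := (continuous_posLog.measurable.comp hΨm.norm).ennreal_ofReal
  set W : ℝ → ℝ≥0∞ := fun v => ∫⁻ x in Ioo (1 / 2 + δ / 2) (1 / 2 + 3 * δ / 2),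
    f ((x : ℂ) + (v : ℂ) * Complex.I) with hW
  have hfm2 : Measurable fun p : ℝ × ℝ => f ((p.1 : ℂ) + (p.2 : ℂ) * Complex.I) :=
    hfm.comp (by fun_prop)
  have hWm : Measurable W := by
    have : Measurable fun p : ℝ × ℝ => f ((p.2 : ℂ) + (p.1 : ℂ) * Complex.I) :=
      hfm.comp (by fun_prop)
    exact this.lintegral_prod_right'
  obtain ⟨hwm, hwin⟩ := Pool.Agent.N748.HM.SUP.window W hWm X1 X2 H
  set h : ℝ → ℝ≥0∞ := fun t => ∫⁻ v in Ioo (t - 1) (t + H + 1), W v with hh
  -- the values at the points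
  have keyA : ∀ t : ℝ, (∃ u : ℝ, t ≤ u ∧ u ≤ t + H ∧ κ ≤ posLog ‖Φ (1 / 2 + δ + u * Complex.I)‖) →
      ENNReal.ofReal (κ * (π * (δ / 2) ^ 2)) ≤ h t := by
    rintro t ⟨u, hu1, hu2, hu3⟩
    set s0 : ℂ := 1 / 2 + δ + u * Complex.I with hs0
    have hre : s0.re = 1 / 2 + δ := by simp [hs0]
    have him : s0.im = u := by simp [hs0]
    have hball : ∀ z ∈ ball s0 (δ / 2), 1 / 2 + δ / 2 < z.re ∧ z.re < 1 / 2 + 3 * δ / 2 ∧
        t - 1 < z.im ∧ z.im < t + H + 1 := by
      intro z hz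
      rw [mem_ball, dist_eq_norm] at hz
      have h1 := (abs_lt.1 ((Complex.abs_re_le_norm (z - s0)).trans_lt hz))
      have h2 := (abs_lt.1 ((Complex.abs_im_le_norm (z - s0)).trans_lt hz))
      rw [Complex.sub_re, hre] at h1
      rw [Complex.sub_im, him] at h2
      refine ⟨by linarith [h1.1], by linarith [h1.2], by linarith [h2.1], by linarith [h2.2]⟩
    have hbs : ball s0 (δ / 2) ⊆ strip := fun z hz => by
      obtain ⟨h1, h2, -, -⟩ := hball z hz
      exact ⟨by linarith, by linarith⟩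
    have h1 := posLog_mul_le_lintegral (g := Φ) (w := s0) (ρ := δ / 2) (by positivity) (hΦ.mono hbs)
    have h2 : ENNReal.ofReal (κ * (π * (δ / 2) ^ 2)) ≤
        ENNReal.ofReal (posLog ‖Φ s0‖ * (π * (δ / 2) ^ 2)) := by
      apply ENNReal.ofReal_le_ofReal
      exact mul_le_mul_of_nonneg_right hu3 (by positivity)
    have h3 : ∫⁻ z in ball s0 (δ / 2), ENNReal.ofReal (posLog ‖Φ z‖) = ∫⁻ z in ball s0 (δ / 2), f z := by
      refine setLIntegral_congr_fun measurableSet_ball fun z hz => ?_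
      simp only [hf]
      rw [hΨ z (hbs hz)]
    have h4 : ∫⁻ z in ball s0 (δ / 2), f z ≤
        ∫⁻ z in {z : ℂ | z.re ∈ Ioo (1 / 2 + δ / 2) (1 / 2 + 3 * δ / 2) ∧
          z.im ∈ Ioo (t - 1) (t + H + 1)}, f z := by
      refine lintegral_mono_set fun z hz => ?_
      obtain ⟨g1, g2, g3, g4⟩ := hball z hz
      exact ⟨⟨g1, g2⟩, ⟨g3, g4⟩⟩
    rw [Pool.Agent.N748.HM.SUP.rect_integral f hfm] at h4
    rw [h3] at h1
    exact h2.trans (h1.trans h4)
  -- the mean
  have keyB : ∫⁻ v in Ioo X1 X2, W v ≤ ENNReal.ofReal (B * δ) := by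
    have hsw : ∫⁻ v in Ioo X1 X2, W v =
        ∫⁻ x in Ioo (1 / 2 + δ / 2) (1 / 2 + 3 * δ / 2), ∫⁻ v in Ioo X1 X2,
          f ((x : ℂ) + (v : ℂ) * Complex.I) := by
      rw [lintegral_lintegral_swap]
      exact (hfm2.comp measurable_swap).aemeasurable
    rw [hsw]
    have hle : ∀ x ∈ Ioo (1 / 2 + δ / 2) (1 / 2 + 3 * δ / 2), ∫⁻ v in Ioo X1 X2,
          f ((x : ℂ) + (v : ℂ) * Complex.I) ≤ ENNReal.ofReal B := by
      intro x hx
      have hmem : ∀ v : ℝ, (x : ℂ) + (v : ℂ) * Complex.I ∈ strip := by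
        intro v
        have hr : ((x : ℂ) + (v : ℂ) * Complex.I).re = x := by simp
        exact ⟨by rw [hr]; linarith [hx.1], by rw [hr]; linarith [hx.2]⟩
      have h5 := hint (x - 1 / 2) (by linarith [hx.1]) (by linarith [hx.2])
      refine le_trans (le_of_eq ?_) h5
      congr 1
      funext v
      simp only [hf]
      rw [hΨ _ (hmem v)]
      congr 4
      push_cast
      ring
    calc ∫⁻ x in Ioo (1 / 2 + δ / 2) (1 / 2 + 3 * δ / 2), ∫⁻ v in Ioo X1 X2,
          f ((x : ℂ) + (v : ℂ) * Complex.I) ≤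
          ∫⁻ _x in Ioo (1 / 2 + δ / 2) (1 / 2 + 3 * δ / 2), ENNReal.ofReal B :=
          setLIntegral_mono' measurableSet_Ioo hle
      _ = ENNReal.ofReal (B * δ) := by
          rw [setLIntegral_const, Real.volume_Ioo, ENNReal.ofReal_mul hB]
          congr 2
          ring
  -- conclusion
  set m : ℝ := κ * (π * (δ / 2) ^ 2) with hm
  have hm0 : 0 < m := by positivity
  set A : Set ℝ := {t : ℝ | X1 + 1 ≤ t ∧ t + H + 1 ≤ X2 ∧ ∃ u : ℝ, t ≤ u ∧ u ≤ t + H ∧
    κ ≤ posLog ‖Φ (1 / 2 + δ + u * Complex.I)‖} with hA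
  have hAsub : A ⊆ {t | ENNReal.ofReal m ≤ h t} ∩ Icc (X1 + 1) (X2 - H - 1) := by
    rintro t ⟨h1, h2, h3⟩
    exact ⟨keyA t h3, ⟨h1, by linarith⟩⟩
  have h6 : volume A ≤ (volume.restrict (Icc (X1 + 1) (X2 - H - 1)))
      {t | ENNReal.ofReal m ≤ h t} := by
    rw [Measure.restrict_apply (measurableSet_le measurable_const hwm)]
    exact measure_mono hAsub
  have h7 := meas_ge_le_lintegral_div (μ := volume.restrict (Icc (X1 + 1) (X2 - H - 1)))
    hwm.aemeasurable (ε := ENNReal.ofReal m) (by simpa using hm0) ENNReal.ofReal_ne_top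
  refine h6.trans (h7.trans ?_)
  rw [ENNReal.div_le_iff (by simpa using hm0) ENNReal.ofReal_ne_top]
  refine hwin.trans ?_
  calc ENNReal.ofReal (H + 2) * ∫⁻ v in Ioo X1 X2, W v ≤
        ENNReal.ofReal (H + 2) * ENNReal.ofReal (B * δ) := mul_le_mul_right keyB _
    _ = ENNReal.ofReal (4 / π * (H + 2) * B / (δ * κ)) * ENNReal.ofReal m := by
        rw [← ENNReal.ofReal_mul (by linarith), ← ENNReal.ofReal_mul (by positivity)]
        congr 1
        rw [hm]
        field_simp
        ring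

end Run7.h701.MX
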