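import Pool.Agent.Run7.h701.MX.M1
import Pool.Agent.Run7.h291.WG.G2
import Pool.Agent.Run7.h291.WN.A9

set_option autoImplicit false

/-!
# The maximum in windows: the mean of `log⁺ (exp (-y) |ζ|)`
-/

namespace Run7.h701.MX

open Filter Topology MeasureTheory Real Set
open Pool.Agent.N748.MG Pool.Agent.N748.MJ Run7.h291.WN Run7.h291.WG
open scoped ENNReal

/-- all distances comparable with `δ` -/
lemma Ev.nb {P : ℝ → ℝ → Prop} (h : Ev P) : Ev fun X δ => ∀ δ' : ℝ, δ / 2 ≤ δ' → δ' ≤ 3 * δ / 2 → P X δ' := by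
  obtain ⟨l1, d1, a1, b1, c1, e1⟩ := h
  refine ⟨8 * l1, d1 / 2, by positivity, by positivity, by linarith, ?_⟩
  filter_upwards [e1, eventually_ge_atTop 1] with X f1 hX1 δ hδ hδ2 hX δ' h1 h2
  have hX0 : 0 ≤ Real.log X := Real.log_nonneg hX1
  have hδ'0 : 0 < δ' := by linarith
  refine f1 δ' hδ'0 (by linarith) ?_
  have hL : 1 ≤ Real.log (1 / δ) := log_inv_ge hδ (by linarith)
  have h3 : Real.log (1 / δ') ≤ 2 * Real.log (1 / δ) := by
    have h4 : 1 / δ' ≤ 2 * (1 / δ) := by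
      rw [mul_one_div, div_le_div_iff₀ hδ'0 hδ]
      linarith
    have h5 := Real.log_le_log (by positivity) h4
    rw [Real.log_mul (by norm_num) (by positivity)] at h5
    have h6 : Real.log 2 ≤ 1 := by linarith [Real.log_two_lt_d9]
    linarith
  have h3' : 1 ≤ Real.log (1 / δ') := log_inv_ge hδ'0 (by linarith)
  have h4 : Real.log (1 / δ') ^ 2 ≤ (2 * Real.log (1 / δ)) ^ 2 := pow_le_pow_left₀ (by linarith) h3 2
  calc l1 * Real.log (1 / δ') ^ 2 ≤ l1 * (2 * Real.log (1 / δ)) ^ 2 := mul_le_mul_of_nonneg_left h4 a1.le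
    _ = 8 * l1 * Real.log (1 / δ) ^ 2 / 2 := by ring
    _ ≤ δ * Real.log X / 2 := by linarith
    _ = δ / 2 * Real.log X := by ring
    _ ≤ δ' * Real.log X := mul_le_mul_of_nonneg_right h1 hX0

/-- the weights -/
noncomputable def wj (V y0 : ℝ) (j : ℕ) : ℝ := 2 * Real.exp (-(2 * V * y0)) * ((j + 1) * Real.exp (-(2 * V * j)))

lemma wj_nn (V y0 : ℝ) (j : ℕ) : 0 ≤ wj V y0 j := by unfold wj; positivity

lemma wj_le {V : ℝ} (hV : 1 ≤ V) (y0 : ℝ) (j : ℕ) : wj V y0 j ≤ 2 * Real.exp (-(2 * V * y0)) * (1 / 2) ^ j := by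
  unfold wj
  refine mul_le_mul_of_nonneg_left ?_ (by positivity)
  have h1 : (j : ℝ) + 1 ≤ Real.exp j := Real.add_one_le_exp _
  have h2 : Real.exp (-(2 * V * j)) ≤ Real.exp (-(2 * j)) := by
    apply Real.exp_le_exp.2
    have : (0:ℝ) ≤ j := Nat.cast_nonneg _
    nlinarith
  calc ((j : ℝ) + 1) * Real.exp (-(2 * V * j)) ≤ Real.exp j * Real.exp (-(2 * j)) :=
        mul_le_mul h1 h2 (Real.exp_pos _).le (Real.exp_pos _).le
    _ = Real.exp (-1) ^ j := by
        rw [← Real.exp_add, ← Real.exp_nat_mul]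
        congr 1
        ring
    _ ≤ (1 / 2) ^ j := by
        apply pow_le_pow_left₀ (Real.exp_pos _).le
        rw [Real.exp_neg, one_div]
        apply inv_anti₀ two_pos
        have := Real.add_one_le_exp (1:ℝ)
        linarith

/-- the pointwise bound -/
lemma pt_bd {V y0 m : ℝ} (hV : 0 < V) (hm : 0 < m) : posLog (Real.exp (-y0) * m) = 0 ∨ ∃ j : ℕ,
    posLog (Real.exp (-y0) * m) ≤ wj V y0 j * (m ^ (2 * V) * (1 + (Real.log m - (y0 + j)) ^ 2)⁻¹) := by
  have he : Real.log (Real.exp (-y0) * m) = Real.log m - y0 := by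
    rw [Real.log_mul (Real.exp_pos _).ne' hm.ne', Real.log_exp]
    ring
  rcases le_or_gt (Real.log m - y0) 0 with h | h
  · left
    rw [posLog_apply, he, max_eq_left h]
  · right
    set z := Real.log m - y0 with hz
    have e1 : posLog (Real.exp (-y0) * m) = z := by
      rw [posLog_apply, he, max_eq_right h.le]
    refine ⟨⌊z⌋₊, ?_⟩
    set j := ⌊z⌋₊ with hj
    have h1 : (j : ℝ) ≤ z := Nat.floor_le h.le
    have h2 : z < j + 1 := Nat.lt_floor_add_one _
    rw [e1]
    have e2 : m ^ (2 * V) = Real.exp (2 * V * (y0 + z)) := by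
      rw [Real.rpow_def_of_pos hm]
      congr 1
      rw [hz]
      ring
    have e3 : Real.log m - (y0 + j) = z - j := by rw [hz]; ring
    rw [e2, e3]
    have h3 : (1:ℝ) / 2 ≤ (1 + (z - j) ^ 2)⁻¹ := by
      rw [one_div]
      apply inv_anti₀ (by positivity)
      nlinarith
    have h4 : Real.exp (2 * V * y0) * Real.exp (2 * V * j) ≤ Real.exp (2 * V * (y0 + z)) := by
      rw [← Real.exp_add]
      apply Real.exp_le_exp.2
      nlinarith
    have h5 : wj V y0 j * (Real.exp (2 * V * y0) * Real.exp (2 * V * j) * (1 / 2)) = j + 1 := by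
      unfold wj
      have g1 : Real.exp (-(2 * V * y0)) * Real.exp (2 * V * y0) = 1 := by
        rw [← Real.exp_add, neg_add_cancel, Real.exp_zero]
      have g2 : Real.exp (-(2 * V * j)) * Real.exp (2 * V * j) = 1 := by
        rw [← Real.exp_add, neg_add_cancel, Real.exp_zero]
      calc _ = (Real.exp (-(2 * V * y0)) * Real.exp (2 * V * y0)) *
            (Real.exp (-(2 * V * j)) * Real.exp (2 * V * j)) * (j + 1) := by ring
        _ = j + 1 := by rw [g1, g2]; ring
    calc z ≤ j + 1 := h2.le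
      _ = wj V y0 j * (Real.exp (2 * V * y0) * Real.exp (2 * V * j) * (1 / 2)) := h5.symm
      _ ≤ wj V y0 j * (Real.exp (2 * V * (y0 + z)) * (1 + (z - j) ^ 2)⁻¹) := by
          refine mul_le_mul_of_nonneg_left ?_ (wj_nn _ _ _)
          exact mul_le_mul h4 h3 (by norm_num) (Real.exp_pos _).le

lemma nrm (δ t y0 : ℝ) : ‖((Real.exp (-y0) : ℝ) : ℂ) * riemannZeta (1 / 2 + δ + t * Complex.I)‖ =
    Real.exp (-y0) * mz δ t := by
  rw [norm_mul, Complex.norm_real, Real.norm_of_nonneg (Real.exp_pos _).le]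
  rfl

/-- the mean of `log⁺ (exp (-y) |ζ|)` -/
theorem mean_log {V : ℝ} (hV : 1 < V) : ∃ C : ℝ, 0 < C ∧ Ev fun X δ => ∀ y0 : ℝ, 0 ≤ y0 →
    ∫⁻ t in Ioo 0 X, ENNReal.ofReal (posLog ‖((Real.exp (-y0) : ℝ) : ℂ) * riemannZeta (1 / 2 + δ + t * Complex.I)‖) ≤
      ENNReal.ofReal (C * (Real.exp (-(2 * V * y0)) * δ ^ (-(V ^ 2)) / √(Real.log (1 / δ)) + δ ^ (V ^ 2 + 1)) * X) := by
  obtain ⟨C0, hC0, E0⟩ := lt 0 V (2 * V ^ 2 + 3) (by linarith) (by positivity)
  obtain ⟨C1, hC1, E1⟩ := msq_zeta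
  obtain ⟨C2, hC2, hLZ⟩ := LZre_bd 0
  set K : ℝ := 4 * C0 * Real.exp (V ^ 2 * C2) with hK
  have hK0 : 0 < K := by positivity
  refine ⟨K + C1 + 1, by positivity, (E0.and E1).mono ?_⟩
  rintro X δ hX1 hδ hδ16 ⟨h0, h1⟩ y0 hy0
  have hX0 : 0 < X := by linarith
  have hL := log_inv_ge hδ hδ16
  set L := Real.log (1 / δ) with hLdef
  have hL0 : 0 < L := by linarith
  have hsL : 0 < √L := Real.sqrt_pos.2 hL0
  obtain ⟨N, n1, n2, n3, n4, n5⟩ := h0 (fun _ => 0) (fun _ => by simpa using (Real.rpow_pos_of_pos hX0 _).le)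
  have hpos : ∀ t ∈ N, 0 < mz δ t := fun t ht => by simpa using n4 t ht 0
  have hsel := fun j : ℕ => n5 (fun _ => V) (fun _ => by rw [abs_of_pos (by linarith)]) (y0 + j)
  choose Hf hH1 hH2 hH3 using hsel
  have hG : ∀ t, SM.G (fun _ : Fin 1 => V) (fun _ => 0) δ t = mz δ t ^ (2 * V) := by
    intro t
    unfold SM.G
    simp
  have hLr : Real.exp (SM.Lr (fun _ : Fin 1 => V) (fun _ => 0) δ) ≤ Real.exp (V ^ 2 * C2) * δ ^ (-(V ^ 2)) := by
    have e1 : SM.Lr (fun _ : Fin 1 => V) (fun _ => 0) δ = V ^ 2 * (LZ (1 + 2 * δ) 0).re := by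
      unfold SM.Lr
      simp only [Finset.univ_unique, Finset.sum_singleton, sub_self]
      ring
    have e2 : δ ^ (-(V ^ 2)) = Real.exp (V ^ 2 * L) := by
      rw [hLdef, one_div, Real.log_inv, Real.rpow_def_of_pos hδ]
      congr 1
      ring
    rw [e1, e2, ← Real.exp_add]
    apply Real.exp_le_exp.2
    have h2 := hLZ δ hδ hδ16 0 (by simp)
    rw [abs_zero, max_eq_right hδ.le, ← hLdef] at h2
    have h3 := (abs_le.1 h2).2
    have h4 : 0 ≤ V ^ 2 := sq_nonneg _
    nlinarith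
  set M : ℝ := C0 * (X * (Real.exp (SM.Lr (fun _ : Fin 1 => V) (fun _ => 0) δ) / √L)) with hM
  have hM0 : 0 ≤ M := by positivity
  set f : ℝ → ℝ≥0∞ := fun t =>
    ENNReal.ofReal (posLog ‖((Real.exp (-y0) : ℝ) : ℂ) * riemannZeta (1 / 2 + δ + t * Complex.I)‖) with hf
  have hcm : Continuous (mz δ) := TMA.cont hδ16
  -- the good set
  have hgood : ∫⁻ t in N, f t ≤ ENNReal.ofReal (4 * Real.exp (-(2 * V * y0)) * M) := by
    have p1 : ∀ t ∈ N, f t ≤ ∑' j : ℕ, ENNReal.ofReal (wj V y0 j * Hf j t) := by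
      intro t ht
      simp only [hf]
      rw [nrm]
      rcases pt_bd (V := V) (y0 := y0) (by linarith) (hpos t ht) with h | ⟨j, hj⟩
      · rw [h, ENNReal.ofReal_zero]
        exact zero_le
      · refine le_trans (ENNReal.ofReal_le_ofReal (hj.trans ?_))
          (ENNReal.le_tsum (f := fun j : ℕ => ENNReal.ofReal (wj V y0 j * Hf j t)) j)
        refine mul_le_mul_of_nonneg_left ?_ (wj_nn _ _ _)
        have h2 := hH2 j t ht
        rw [hG, add_zero] at h2
        exact h2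
    have p2 : ∀ j : ℕ, ∫⁻ t in N, ENNReal.ofReal (wj V y0 j * Hf j t) ≤
        ENNReal.ofReal (2 * Real.exp (-(2 * V * y0)) * M * (1 / 2) ^ j) := by
      intro j
      have hnn : 0 ≤ᵐ[volume.restrict N] fun t => wj V y0 j * Hf j t := by
        filter_upwards [ae_restrict_mem n1] with t ht
        refine mul_nonneg (wj_nn _ _ _) (le_trans ?_ (hH2 j t ht))
        exact mul_nonneg (SM.G_nn _ _ _ _) (by positivity)
      rw [← ofReal_integral_eq_lintegral_ofReal ((hH1 j).const_mul _) hnn]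
      apply ENNReal.ofReal_le_ofReal
      rw [integral_const_mul]
      calc wj V y0 j * ∫ t in N, Hf j t ≤ wj V y0 j * M := mul_le_mul_of_nonneg_left (hH3 j) (wj_nn _ _ _)
        _ ≤ 2 * Real.exp (-(2 * V * y0)) * (1 / 2) ^ j * M := mul_le_mul_of_nonneg_right (wj_le hV.le _ _) hM0
        _ = _ := by ring
    calc ∫⁻ t in N, f t ≤ ∫⁻ t in N, ∑' j : ℕ, ENNReal.ofReal (wj V y0 j * Hf j t) := setLIntegral_mono' n1 p1
      _ = ∑' j : ℕ, ∫⁻ t in N, ENNReal.ofReal (wj V y0 j * Hf j t) := by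
          rw [lintegral_tsum]
          intro j
          exact ((hH1 j).const_mul _).aestronglyMeasurable.aemeasurable.ennreal_ofReal
      _ ≤ ∑' j : ℕ, ENNReal.ofReal (2 * Real.exp (-(2 * V * y0)) * M * (1 / 2) ^ j) := ENNReal.tsum_le_tsum p2
      _ = ENNReal.ofReal (∑' j : ℕ, 2 * Real.exp (-(2 * V * y0)) * M * (1 / 2) ^ j) := by
          rw [ENNReal.ofReal_tsum_of_nonneg (fun j => by positivity)]
          exact (summable_geometric_of_lt_one (by norm_num) (by norm_num)).mul_left _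
      _ = ENNReal.ofReal (4 * Real.exp (-(2 * V * y0)) * M) := by
          rw [tsum_mul_left, tsum_geometric_two]
          congr 1
          ring
  -- the exceptional set
  set lam : ℝ := δ ^ (-(V ^ 2 + 2)) with hlam
  have hlam0 : 0 < lam := Real.rpow_pos_of_pos hδ _
  have hbad : ∫⁻ t in Icc 0 X \ N, f t ≤ ENNReal.ofReal ((C1 + 1) * δ ^ (V ^ 2 + 1) * X) := by
    have q1 : ∀ t, f t ≤ ENNReal.ofReal lam + ENNReal.ofReal (lam⁻¹ * mz δ t ^ 2) := by
      intro t
      simp only [hf]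
      rw [nrm, ← ENNReal.ofReal_add hlam0.le (by positivity)]
      apply ENNReal.ofReal_le_ofReal
      have hm0 : 0 ≤ mz δ t := norm_nonneg _
      have r1 : posLog (Real.exp (-y0) * mz δ t) ≤ posLog (mz δ t) := by
        apply posLog_le_posLog (by positivity)
        have : Real.exp (-y0) ≤ 1 := Real.exp_le_one_iff.2 (by linarith)
        nlinarith
      have r2 : posLog (mz δ t) ≤ mz δ t := by
        rw [posLog_apply]
        refine max_le hm0 ?_
        rcases hm0.eq_or_lt with h | h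
        · rw [← h, Real.log_zero]
        · have := Real.log_le_sub_one_of_pos h
          linarith
      have r3 : mz δ t ≤ lam + lam⁻¹ * mz δ t ^ 2 := by
        rcases le_or_gt (mz δ t) lam with h | h
        · have : 0 ≤ lam⁻¹ * mz δ t ^ 2 := by positivity
          linarith
        · have : mz δ t ≤ lam⁻¹ * mz δ t ^ 2 := by
            rw [inv_mul_eq_div, le_div_iff₀ hlam0]
            nlinarith
          linarith
      linarith
    have q2 : ∫⁻ t in Icc 0 X \ N, ENNReal.ofReal (lam⁻¹ * mz δ t ^ 2) ≤ ENNReal.ofReal (C1 * δ ^ (V ^ 2 + 1) * X) := by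
      calc ∫⁻ t in Icc 0 X \ N, ENNReal.ofReal (lam⁻¹ * mz δ t ^ 2) ≤
            ∫⁻ t in Icc 0 X, ENNReal.ofReal (lam⁻¹ * mz δ t ^ 2) := lintegral_mono_set sdiff_subset
        _ = ENNReal.ofReal (∫ t in Icc 0 X, lam⁻¹ * mz δ t ^ 2) := by
            rw [ofReal_integral_eq_lintegral_ofReal]
            · exact (continuous_const.mul (hcm.pow 2)).integrableOn_Icc
            · exact Filter.Eventually.of_forall fun t => by positivity
        _ ≤ ENNReal.ofReal (C1 * δ ^ (V ^ 2 + 1) * X) := by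
            apply ENNReal.ofReal_le_ofReal
            rw [integral_const_mul]
            have h2 := h1 δ (by linarith) (by linarith)
            rw [intervalIntegral.integral_of_le hX0.le, ← integral_Icc_eq_integral_Ioc] at h2
            have h3 : ∫ t in Icc 0 X, mz δ t ^ 2 ≤ C1 * X / δ := h2
            have h4 : lam⁻¹ = δ ^ (V ^ 2 + 2) := by
              rw [hlam, Real.rpow_neg hδ.le, inv_inv]
            have h5 : δ ^ (V ^ 2 + 2) = δ ^ (V ^ 2 + 1) * δ := by
              have : V ^ 2 + 2 = (V ^ 2 + 1) + 1 := by ring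
              rw [this, Real.rpow_add hδ, Real.rpow_one]
            calc lam⁻¹ * ∫ t in Icc 0 X, mz δ t ^ 2 ≤ lam⁻¹ * (C1 * X / δ) :=
                  mul_le_mul_of_nonneg_left h3 (by positivity)
              _ = C1 * δ ^ (V ^ 2 + 1) * X := by
                  rw [h4, h5]
                  field_simp
    have q3 : ENNReal.ofReal lam * volume (Icc 0 X \ N) ≤ ENNReal.ofReal (δ ^ (V ^ 2 + 1) * X) := by
      calc ENNReal.ofReal lam * volume (Icc 0 X \ N) ≤
            ENNReal.ofReal lam * ENNReal.ofReal (δ ^ (2 * V ^ 2 + 3) * X) := mul_le_mul_right n3 _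
        _ = ENNReal.ofReal (δ ^ (V ^ 2 + 1) * X) := by
            rw [← ENNReal.ofReal_mul hlam0.le, ← mul_assoc, hlam, ← Real.rpow_add hδ]
            congr 3
            ring
    calc ∫⁻ t in Icc 0 X \ N, f t ≤
          ∫⁻ t in Icc 0 X \ N, (ENNReal.ofReal lam + ENNReal.ofReal (lam⁻¹ * mz δ t ^ 2)) := lintegral_mono q1
      _ = ENNReal.ofReal lam * volume (Icc 0 X \ N) + ∫⁻ t in Icc 0 X \ N, ENNReal.ofReal (lam⁻¹ * mz δ t ^ 2) := by
          rw [lintegral_add_left measurable_const, setLIntegral_const]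
      _ ≤ ENNReal.ofReal (δ ^ (V ^ 2 + 1) * X) + ENNReal.ofReal (C1 * δ ^ (V ^ 2 + 1) * X) := add_le_add q3 q2
      _ = ENNReal.ofReal ((C1 + 1) * δ ^ (V ^ 2 + 1) * X) := by
          rw [← ENNReal.ofReal_add (by positivity) (by positivity)]
          congr 1
          ring
  have hsub : Ioo 0 X ⊆ N ∪ (Icc 0 X \ N) := by
    intro t ht
    by_cases h : t ∈ N
    · exact Or.inl h
    · exact Or.inr ⟨⟨ht.1.le, ht.2.le⟩, h⟩
  calc ∫⁻ t in Ioo 0 X, f t ≤ ∫⁻ t in N ∪ (Icc 0 X \ N), f t := lintegral_mono_set hsub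
    _ ≤ (∫⁻ t in N, f t) + ∫⁻ t in Icc 0 X \ N, f t := lintegral_union_le _ _ _
    _ ≤ ENNReal.ofReal (4 * Real.exp (-(2 * V * y0)) * M) + ENNReal.ofReal ((C1 + 1) * δ ^ (V ^ 2 + 1) * X) :=
        add_le_add hgood hbad
    _ ≤ _ := by
        rw [← ENNReal.ofReal_add (by positivity) (by positivity)]
        apply ENNReal.ofReal_le_ofReal
        have g1 : 4 * Real.exp (-(2 * V * y0)) * M ≤
            K * (Real.exp (-(2 * V * y0)) * δ ^ (-(V ^ 2)) / √L) * X := by
          calc 4 * Real.exp (-(2 * V * y0)) * M ≤ 4 * Real.exp (-(2 * V * y0)) *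
                (C0 * (X * ((Real.exp (V ^ 2 * C2) * δ ^ (-(V ^ 2))) / √L))) := by
                rw [hM]
                gcongr
            _ = _ := by
                rw [hK]
                ring
        have g2 : 0 ≤ Real.exp (-(2 * V * y0)) * δ ^ (-(V ^ 2)) / √L * X := by positivity
        have g3 : 0 ≤ δ ^ (V ^ 2 + 1) * X := by positivity
        nlinarith
end Run7.h701.MX
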